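import Pool.Agent.Helper26_BSN.Defs2

/-! # Squad BSN (MP_b3d4e2_lc): modules STP and SCJ. -/

set_option autoImplicit false

namespace Pool.Agent.BSN.H34

open Filter Pool.Agent.BSig Pool.Agent.BSN

theorem npr_mono {a b c d : ℕ} (h : a ≤ c) (h' : b ≤ d) : npr a b ≤ npr c d := by
  unfold npr
  exact Nat.add_le_add (Nat.mul_le_mul (Nat.add_le_add h h') (Nat.add_le_add h h')) h

theorem bdd_npr {τ : Tower} {f g : ℕ → ℕ} (hf : Bddt τ f) (hg : Bddt τ g) :
    Bddt τ (fun n => npr (f n) (g n)) := by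
  unfold npr
  exact bdd_add (bdd_mul (bdd_add hf hg) (bdd_add hf hg)) hf

theorem bdd_env {τ : Tower} : ∀ {k : ℕ} (f : Fin k → ℕ → ℕ), (∀ i, Bddt τ (f i)) →
    Bddt τ (fun n => env (fun i => f i n))
  | 0, _, _ => bdd_const 0
  | k + 1, f, hf => by
    have h1 := bdd_env (fun i : Fin k => f i.succ) (fun i => hf i.succ)
    exact bdd_npr (hf 0) h1

theorem bdd_GG (hG : GGBasics) {j : ℕ} {f : ℕ → ℕ} (hf : Bddt (towj j) f) :
    Bddt (towj j) (fun n => GG j (f n)) := by
  obtain ⟨K, hK⟩ := hf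
  refine ⟨K + 1, ?_⟩
  filter_upwards [hK] with n hn
  have h1 : GG j (f n) ≤ GG j ((towj j).tow K n) := hG.2.1 j _ _ hn.le
  have h2 : (towj j).tow (K + 1) n = 2 ^ (towj j).tow K n + GG j ((towj j).tow K n) := rfl
  have h3 : 0 < 2 ^ (towj j).tow K n := by positivity
  omega

theorem rep_append {τ : Tower} {i k : ℕ} (w : Fin i → MMt τ) (v : Fin k → MMt τ) (n : ℕ) :
    (fun s => rep (Fin.append w v s) n) =
      Fin.append (fun t => rep (w t) n) (fun t => rep (v t) n) := by
  funext s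
  refine Fin.addCases (fun t => ?_) (fun t => ?_) s
  · rw [Fin.append_left, Fin.append_left]
  · rw [Fin.append_right, Fin.append_right]

theorem not_starR {τ : Tower} {i k : ℕ} (Q : (Fin (i + k) → ℕ) → Prop) (w : Fin i → MMt τ)
    (v : Fin k → MMt τ) : ¬ starR Q (Fin.append w v) ↔ ∀ᶠ n in (UU : Filter ℕ),
      ¬ Q (Fin.append (fun t => rep (w t) n) (fun t => rep (v t) n)) := by
  unfold starR
  rw [not_eventually']
  refine eventually_congr (Eventually.of_forall fun n => ?_)
  rw [rep_append]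

/-- STP -/
theorem stp (hD : DomStmt) (hG : GGBasics) : StepStmt := by
  intro j j' hj i k Q hQ v
  constructor
  · intro h
    obtain ⟨c, hc⟩ := hD j j' hj i k Q hQ
    classical
    let wf : Fin i → ℕ → ℕ := fun t n =>
      if h : ∃ w : Fin i → ℕ, (∀ t, w t ≤ GG j (c + env (fun s => rep (v s) n))) ∧
        ¬ Q (Fin.append w (fun s => rep (v s) n)) then h.choose t else 0
    have hbnd : Bddt (towj j) (fun n => GG j (c + env (fun s => rep (v s) n))) :=
      bdd_GG hG (bdd_add (bdd_const c) (bdd_env _ (fun s => bdd_rep (v s))))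
    have hw : ∀ᶠ n in (UU : Filter ℕ), (∀ t, wf t n ≤ GG j (c + env (fun s => rep (v s) n))) ∧
        ¬ Q (Fin.append (fun t => wf t n) (fun s => rep (v s) n)) := by
      filter_upwards [h] with n hn
      have h' : ∃ w : Fin i → ℕ, (∀ t, w t ≤ GG j (c + env (fun s => rep (v s) n))) ∧
        ¬ Q (Fin.append w (fun s => rep (v s) n)) := hc _ hn
      have e : (fun t => wf t n) = h'.choose := by
        funext t
        simp only [wf, dif_pos h']
      refine ⟨fun t => ?_, ?_⟩
      · have : wf t n = h'.choose t := congrFun e t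
        rw [this]
        exact h'.choose_spec.1 t
      · rw [e]
        exact h'.choose_spec.2
    have hb : ∀ t, Bddt (towj j) (wf t) := fun t =>
      bdd_of_le hbnd (hw.mono fun n hn => hn.1 t)
    refine ⟨fun t => mk (wf t) (hb t), ?_⟩
    rw [not_starR]
    have hr : ∀ᶠ n in (UU : Filter ℕ), ∀ t, rep (mk (wf t) (hb t)) n = wf t n :=
      eventually_all.2 fun t => rep_mk (wf t) (hb t)
    filter_upwards [hw, hr] with n h1 h2
    have e : (fun t => rep (mk (wf t) (hb t)) n) = fun t => wf t n := funext h2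
    rw [e]
    exact h1.2
  · rintro ⟨w, hw⟩
    rw [not_starR] at hw
    filter_upwards [hw] with n hn
    exact ⟨_, hn⟩

/-- SCJ -/
theorem scj (hE : Elem0) (hD : DomStmt) (hG : GGBasics) : SCAll := by
  intro j R hR b
  obtain ⟨l, c, S, hS, hRS⟩ := hE (towj j) 2 R hR
  let σ : Fin (l + 2) → Fin (1 + (l + 1)) :=
    Fin.append (fun t : Fin l => Fin.natAdd 1 t.succ) ![Fin.natAdd 1 0, Fin.castAdd (l + 1) 0]
  have hQ : IsSigma 0 (fun u : Fin (1 + (l + 1)) → ℕ => ¬ S (fun s => u (σ s))) :=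
    (hS.subst (F := fun s u => u (σ s)) (fun s => IsTerm.var _)).not
  have hσ : ∀ (w : Fin 1 → ℕ) (v : Fin (l + 1) → ℕ), (fun s => (Fin.append w v) (σ s)) =
      Fin.append (fun t : Fin l => v t.succ) ![v 0, w 0] := by
    intro w v
    funext s
    refine Fin.addCases (fun t => ?_) (fun t => ?_) s
    · simp only [σ, Fin.append_left, Fin.append_right]
    · simp only [σ, Fin.append_right]
      fin_cases t
      · simp
      · simp
  obtain ⟨c0, hc0⟩ := hD j 0 (Nat.zero_le j) 1 (l + 1) _ hQ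
  have key : ∀ (cc : Fin l → ℕ) (x : ℕ), (∃ y, S (Fin.append cc ![x, y])) →
      ∃ y, y ≤ GG j (c0 + npr x (env cc)) ∧ S (Fin.append cc ![x, y]) := by
    rintro cc x ⟨y, hy⟩
    obtain ⟨w, hw1, hw2⟩ := hc0 (Fin.cons x cc) ⟨fun _ => y, by
      rw [hσ, not_not]
      simpa using hy⟩
    rw [hσ, not_not] at hw2
    refine ⟨w 0, ?_, ?_⟩
    · have := hw1 0
      simpa [env] using this
    · simpa using hw2
  have hcb : Bddt (towj j) (fun n => env (fun t => rep (c t) n)) :=
    bdd_env _ (fun t => bdd_rep (c t))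
  have hbnd : Bddt (towj j) (fun n => GG j (c0 + npr (rep b n) (env (fun t => rep (c t) n)))) :=
    bdd_GG hG (bdd_add (bdd_const c0) (bdd_npr (bdd_rep b) hcb))
  have happ : ∀ (x y : MMt (towj j)) (n : ℕ),
      (fun s => rep (Fin.append c ![x, y] s) n) =
        Fin.append (fun t => rep (c t) n) ![rep x n, rep y n] := by
    intro x y n
    rw [rep_append]
    congr 1
    funext t
    fin_cases t <;> rfl
  refine ⟨mk _ hbnd, fun x hx hy => ?_⟩
  obtain ⟨y, hy⟩ := hy
  rw [hRS] at hy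
  have hy' : ∀ᶠ n in (UU : Filter ℕ),
      S (Fin.append (fun t => rep (c t) n) ![rep x n, rep y n]) :=
    Eventually.mono hy fun n hn => by
      rw [← happ]; exact hn
  have hxb : ∀ᶠ n in (UU : Filter ℕ), rep x n ≤ rep b n := by
    have h1 : mk (rep x) (bdd_rep x) ≤ mk (rep b) (bdd_rep b) := by
      rw [mk_rep, mk_rep]; exact hx
    exact mk_le.1 h1
  classical
  let yf : ℕ → ℕ := fun n =>
    if h : ∃ y, y ≤ GG j (c0 + npr (rep x n) (env (fun t => rep (c t) n))) ∧
      S (Fin.append (fun t => rep (c t) n) ![rep x n, y]) then h.choose else 0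
  have hyf : ∀ᶠ n in (UU : Filter ℕ),
      yf n ≤ GG j (c0 + npr (rep b n) (env (fun t => rep (c t) n))) ∧
      S (Fin.append (fun t => rep (c t) n) ![rep x n, yf n]) := by
    filter_upwards [hy', hxb] with n h1 h2
    have h' := key _ _ ⟨_, h1⟩
    have e : yf n = h'.choose := by simp only [yf, dif_pos h']
    rw [e]
    refine ⟨h'.choose_spec.1.trans (hG.2.1 j _ _ ?_), h'.choose_spec.2⟩
    exact Nat.add_le_add_left (npr_mono h2 le_rfl) _
  have hyb : Bddt (towj j) yf := bdd_of_le hbnd (hyf.mono fun n hn => hn.1)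
  refine ⟨mk yf hyb, mk_le.2 (hyf.mono fun n hn => hn.1), ?_⟩
  rw [hRS]
  show ∀ᶠ n in (UU : Filter ℕ), S (fun s => rep (Fin.append c ![x, mk yf hyb] s) n)
  filter_upwards [hyf, rep_mk yf hyb] with n h1 h2
  rw [happ, h2]
  exact h1.2

end Pool.Agent.BSN.H34
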